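import Pool.Agent.W58.GU.Stm

/-! Project GU, part GU-SPEC: special sequence built from an operator. -/

namespace Pool.Agent.W912.GU
open Finset Pool.Agent.W58.GU

/-- sign -/
def sg (q : ℚ) : ℚ := if 0 < q then 1 else if q < 0 then -1 else 0

theorem sg_cases (q : ℚ) : sg q = 0 ∨ sg q = 1 ∨ sg q = -1 := by
  unfold sg; split_ifs <;> simp

theorem sg_mul (q : ℚ) : sg q * q = |q| := by
  unfold sg
  split_ifs with h h'
  · rw [abs_of_pos h, one_mul]
  · rw [abs_of_neg h']; ring
  · have : q = 0 := le_antisymm (not_lt.1 h) (not_lt.1 h')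
    rw [this]; simp

theorem sg_mul_abs (q : ℚ) : sg q * |q| = q := by
  unfold sg
  split_ifs with h h'
  · rw [abs_of_pos h, one_mul]
  · rw [abs_of_neg h']; ring
  · have : q = 0 := le_antisymm (not_lt.1 h) (not_lt.1 h')
    rw [this]; simp

section
variable (P : Par) (f : ℕ → (ℕ →₀ ℚ))

/-- average of the functionals `f p, …, f (p + n_i - 1)` -/
noncomputable def FF (i p : ℕ) : ℕ →₀ ℚ := (1 / (P.m i : ℚ)) • ∑ r ∈ range (P.n i), f (p + r)

/-- its absolute value -/
noncomputable def GG (i p : ℕ) : ℕ →₀ ℚ := th (fun a => sg (FF P f i p a)) (FF P f i p)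

theorem GG_apply (i p a : ℕ) : GG P f i p a = |FF P f i p a| := by
  unfold GG
  rw [th_apply, sg_mul]

theorem FF_ne {i p b : ℕ} (h : FF P f i p b ≠ 0) : ∃ a, p ≤ a ∧ a < p + P.n i ∧ f a b ≠ 0 := by
  by_contra hc
  push Not at hc
  apply h
  unfold FF
  rw [Finsupp.smul_apply, Finsupp.finsetSum_apply, Finset.sum_eq_zero, smul_zero]
  intro r hr
  exact hc (p + r) (by omega) (by have := Finset.mem_range.1 hr; omega)

/-- state of the recursion -/
structure St where
  L : List (ℕ × (ℕ →₀ ℚ))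
  idx : ℕ
  p : ℕ

/-- the recursion -/
noncomputable def st (i0 : ℕ) : ℕ → St
  | 0 => ⟨[], i0, P.n i0⟩
  | k + 1 => ⟨(st i0 k).L ++ [((st i0 k).idx, GG P f (st i0 k).idx (st i0 k).p)],
      P.σ ((st i0 k).L ++ [((st i0 k).idx, GG P f (st i0 k).idx (st i0 k).p)]),
      (st i0 k).p + P.n (st i0 k).idx +
        P.n (P.σ ((st i0 k).L ++ [((st i0 k).idx, GG P f (st i0 k).idx (st i0 k).p)]))⟩

/-- indices -/
noncomputable def ix (i0 k : ℕ) : ℕ := (st P f i0 k).idx

/-- positions -/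
noncomputable def pp (i0 k : ℕ) : ℕ := (st P f i0 k).p

theorem L_eq (i0 k : ℕ) : (st P f i0 k).L =
    (List.range k).map (fun l => (ix P f i0 l, GG P f (ix P f i0 l) (pp P f i0 l))) := by
  induction k with
  | zero => rfl
  | succ k ih => rw [List.range_succ, List.map_append, ← ih]; rfl

theorem ix_zero (i0 : ℕ) : ix P f i0 0 = i0 := rfl

theorem ix_succ (i0 k : ℕ) : ix P f i0 (k + 1) = P.σ ((List.range (k + 1)).map
    (fun l => (ix P f i0 l, GG P f (ix P f i0 l) (pp P f i0 l)))) := by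
  rw [← L_eq]; rfl

theorem pp_zero (i0 : ℕ) : pp P f i0 0 = P.n (ix P f i0 0) := rfl

theorem pp_succ (i0 k : ℕ) :
    pp P f i0 (k + 1) = pp P f i0 k + P.n (ix P f i0 k) + P.n (ix P f i0 (k + 1)) := rfl

theorem n_le_pp (i0 k : ℕ) : P.n (ix P f i0 k) ≤ pp P f i0 k := by
  cases k with
  | zero => exact le_rfl
  | succ k => rw [pp_succ]; omega

theorem pp_mono (i0 : ℕ) : Monotone (pp P f i0) :=
  monotone_nat_of_le_succ fun k => by rw [pp_succ]; omega

theorem pp_lt (i0 : ℕ) {k l : ℕ} (h : k < l) :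
    pp P f i0 k + P.n (ix P f i0 k) ≤ pp P f i0 l := by
  refine le_trans ?_ (pp_mono P f i0 h)
  rw [Nat.succ_eq_add_one, pp_succ]; omega

end

/-- Sum of powers of one half. -/
theorem sum_half (p n : ℕ) :
    ∑ a ∈ Finset.Ico p (p + n), ((1 : ℝ) / 2) ^ a = 2 * (1 / 2) ^ p - 2 * (1 / 2) ^ (p + n) := by
  induction n with
  | zero => simp
  | succ n ih =>
    rw [← add_assoc, Finset.sum_Ico_succ_top (by omega), ih, pow_succ]
    ring

/-- `m_i ≤ n_i` -/
theorem m_le_n (P : Par) (i : ℕ) : P.m i ≤ P.n i := by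
  obtain ⟨a, ha, -, h⟩ := P.hn i
  have h1 := P.two_le i
  have h2 : 1 ≤ (3 * a) ^ (2 * P.m i + 1) := Nat.one_le_pow _ _ (by omega)
  nlinarith

theorem spec (hAVG : S_AVG) (hDEP : S_DEP) (hRF : S_RF) : S_SPEC := by
  intro P X _ _ M T C x j N f δ hC hδ hR hN hf
  -- choice of J
  obtain ⟨J, hJ, hJm⟩ : ∃ J, J % 2 = 1 ∧ 18 * C * ‖T‖ / δ < P.m J := by
    obtain ⟨t, ht⟩ := exists_nat_gt (18 * C * ‖T‖ / δ)
    refine ⟨2 * t + 1, by omega, ht.trans_le ?_⟩
    have := P.hm1 (2 * t + 1)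
    exact_mod_cast (by omega : t ≤ P.m (2 * t + 1))
  obtain ⟨i0, hi0, hi0m⟩ : ∃ i0, i0 % 4 = 2 ∧ P.n J ^ 2 ≤ P.m i0 := by
    refine ⟨4 * P.n J ^ 2 + 2, by omega, ?_⟩
    have := P.hm1 (4 * P.n J ^ 2 + 2)
    omega
  set idx : ℕ → ℕ := ix P f i0 with hidx
  set p : ℕ → ℕ := pp P f i0 with hp
  set F : ℕ → (ℕ →₀ ℚ) := fun k => FF P f (idx k) (p k) with hF
  set G : ℕ → (ℕ →₀ ℚ) := fun k => GG P f (idx k) (p k) with hG
  set E : ℕ → Finset ℕ := fun k => Finset.Ico (p k) (p k + P.n (idx k)) with hE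
  set Xv : ℕ → (ℕ →₀ ℝ) := fun k => ((P.m (idx k) : ℝ) / P.n (idx k)) • ∑ a ∈ E k, x a with hXv
  have hmpos : ∀ i, (0 : ℝ) < P.m i := fun i => by exact_mod_cast P.m_pos i
  have hnpos : ∀ i, (0 : ℝ) < P.n i := fun i => by exact_mod_cast P.n_pos i
  have hidx2 : ∀ k, idx k % 2 = 0 := by
    intro k
    cases k with
    | zero => rw [hidx, ix_zero]; omega
    | succ k =>
      rw [hidx, ix_succ]
      have := P.hσ4 ((List.range (k + 1)).map
        (fun l => (ix P f i0 l, GG P f (ix P f i0 l) (pp P f i0 l))))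
      omega
  have hFw : ∀ k, KW P (some (idx k)) (F k) := by
    intro k
    refine KW.even (idx k) (P.n (idx k)) (fun r => f (p k + r)) (fun r => (hf (p k + r)).1.choose)
      (hidx2 k) le_rfl ?_ ?_
    · intro r s hrs _ a ha b hb
      have h1 := ((hf (p k + r)).2.1 a ha).2
      have h2 := ((hf (p k + s)).2.1 b hb).1
      have h3 : N (p k + r + 1) ≤ N (p k + s) := hN (by omega)
      omega
    · intro r _
      exact (hf (p k + r)).1.choose_spec
  have hGw : ∀ k, KW P (some (idx k)) (G k) := fun k => (hFw k).th fun a => sg_cases _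
  have hGa : ∀ k b, G k b = |F k b| := fun k b => GG_apply P f _ _ _
  have hFne : ∀ k b, F k b ≠ 0 → ∃ a, p k ≤ a ∧ a < p k + P.n (idx k) ∧ f a b ≠ 0 :=
    fun k b h => FF_ne P f h
  have hFs : ∀ k b, F k b ≠ 0 → N (p k) ≤ b ∧ b < N (p k + P.n (idx k)) := by
    intro k b h
    obtain ⟨a, h1, h2, h3⟩ := hFne k b h
    have h4 := (hf a).2.1 b (Finsupp.mem_support_iff.2 h3)
    have h5 : N (p k) ≤ N a := hN h1
    have h6 : N (a + 1) ≤ N (p k + P.n (idx k)) := hN (by omega)
    omega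
  have hXne : ∀ k b, Xv k b ≠ 0 → ∃ a, p k ≤ a ∧ a < p k + P.n (idx k) ∧ x a b ≠ 0 := by
    intro k b h
    by_contra hc
    push Not at hc
    apply h
    simp only [hXv]
    rw [Finsupp.smul_apply, Finsupp.finsetSum_apply, Finset.sum_eq_zero, smul_zero]
    intro a ha
    have := Finset.mem_Ico.1 ha
    exact hc a this.1 this.2
  have hNp : ∀ k, N (p k + P.n (idx k)) ≤ N (p (k + 1)) := fun k =>
    hN (pp_lt P f i0 (Nat.lt_succ_self k))
  -- disjointness of the intervals
  have hdisj : ∀ a a' b, N a ≤ b → b < N (a + 1) → N a' ≤ b → b < N (a' + 1) → a = a' := by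
    intro a a' b h1 h2 h3 h4
    rcases lt_trichotomy a a' with h | h | h
    · have : N (a + 1) ≤ N a' := hN h
      omega
    · exact h
    · have : N (a' + 1) ≤ N a := hN h
      omega
  have hEx : ∀ k, Ex P (3 * C) (idx k) (Xv k) := by
    intro k
    have h1 : 1 ≤ P.n (idx k) := P.n_pos _
    have hfam := hRF P C x j hC hR (P.n (idx k)) h1 (E k) (fun a ha => by
      have := (Finset.mem_Ico.1 ha).1
      exact (n_le_pp P f i0 k).trans this)
    exact hAVG P C _ (E k) x j (by linarith) (by positivity) hfam (idx k)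
      (by simp [hE]) le_rfl
  -- dependent sequence
  have hdep := hDEP P (3 * C) (by linarith) J hJ Xv G idx (fun k => N (p k))
    (fun k l h => hN (pp_mono P f i0 h)) (by
      intro k _
      refine ⟨?_, ?_, ?_, hEx k⟩
      · intro b hb
        obtain ⟨a, h1, h2, h3⟩ := hXne k b (Finsupp.mem_support_iff.1 hb)
        have h4 := (hf a).2.2.1 b (Finsupp.mem_support_iff.2 h3)
        have h5 : N (p k) ≤ N a := hN h1
        have h6 : N (a + 1) ≤ N (p k + P.n (idx k)) := hN (by omega)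
        have h7 := hNp k
        omega
      · intro b hb
        have h0 : F k b ≠ 0 := by
          have := Finsupp.mem_support_iff.1 hb
          rw [hGa] at this
          exact abs_ne_zero.1 this
        have h7 := hNp k
        have := hFs k b h0
        omega
      · rw [Finset.disjoint_left]
        intro b hb hb'
        have h0 : F k b ≠ 0 := by
          have := Finsupp.mem_support_iff.1 hb
          rw [hGa] at this
          exact abs_ne_zero.1 this
        obtain ⟨a, h1, h2, h3⟩ := hFne k b h0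
        obtain ⟨a', h1', h2', h3'⟩ := hXne k b (Finsupp.mem_support_iff.1 hb')
        have h4 := (hf a).2.1 b (Finsupp.mem_support_iff.2 h3)
        have h4' := (hf a').2.2.1 b (Finsupp.mem_support_iff.2 h3')
        have h5 := hdisj a a' b h4.1 h4.2 h4'.1 h4'.2
        subst h5
        exact Finset.disjoint_left.1 (hf a).2.2.2.1 (Finsupp.mem_support_iff.2 h3)
          (Finsupp.mem_support_iff.2 h3'))
    hi0 hi0m (ix_succ P f i0)
  -- the functional
  set θ : ℕ → ℚ := fun b => sg (∑ k ∈ range (P.n J), F k b) with hθ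
  have hθG : ∀ k, k < P.n J → th θ (G k) = F k := by
    intro k hk
    ext b
    rw [th_apply, hGa]
    rcases eq_or_ne (F k b) 0 with h0 | h0
    · rw [h0]; simp
    · have hs : ∑ l ∈ range (P.n J), F l b = F k b := by
        refine Finset.sum_eq_single k ?_ ?_
        · intro l _ hlk
          by_contra hl
          have h1 := hFs k b h0
          have h2 := hFs l b hl
          rcases lt_or_gt_of_ne hlk with h | h
          · have : N (p l + P.n (idx l)) ≤ N (p k) := hN (pp_lt P f i0 h)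
            omega
          · have : N (p k + P.n (idx k)) ≤ N (p l) := hN (pp_lt P f i0 h)
            omega
        · intro h
          exact absurd (Finset.mem_range.2 hk) h
      simp only [hθ, hs]
      exact sg_mul_abs _
  have hPhi : KW P (some J) ((1 / (P.m J : ℚ)) • ∑ k ∈ range (P.n J), F k) := by
    have h := KW.odd J (P.n J) G idx θ hJ le_rfl (by
      intro k l hkl _ b hb b' hb'
      have h0 : F k b ≠ 0 := by
        have := Finsupp.mem_support_iff.1 hb
        rw [hGa] at this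
        exact abs_ne_zero.1 this
      have h0' : F l b' ≠ 0 := by
        have := Finsupp.mem_support_iff.1 hb'
        rw [hGa] at this
        exact abs_ne_zero.1 this
      have h1 := hFs k b h0
      have h2 := hFs l b' h0'
      have : N (p k + P.n (idx k)) ≤ N (p l) := hN (pp_lt P f i0 hkl)
      omega) (fun a => sg_cases _) (fun k _ a => by rw [hGa]; exact abs_nonneg _)
      hi0 hi0m (ix_succ P f i0) (fun k _ => hGw k)
    rwa [Finset.sum_congr rfl fun k hk => hθG k (Finset.mem_range.1 hk)] at h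
  set Φ : ℕ →₀ ℚ := (1 / (P.m J : ℚ)) • ∑ k ∈ range (P.n J), F k with hΦ
  set Z : ℕ →₀ ℝ := ∑ k ∈ range (P.n J), Xv k with hZ
  -- upper bound
  have hup : |pr Φ (M.co (T (M.emb Z)))| ≤ ‖T‖ * (3 * (3 * C) * P.n J / (P.m J : ℝ) ^ 2) := by
    refine (M.abs_pr_co _ ⟨_, hPhi⟩).trans ((T.le_opNorm _).trans ?_)
    apply mul_le_mul_of_nonneg_left _ (norm_nonneg _)
    rw [M.norm_emb]
    exact nz_le hdep
  -- the matrix
  set B : ℕ → ℕ → ℝ := fun a b => pr (f a) (M.co (T (M.emb (x b)))) with hB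
  have hXB : ∀ g : ℕ →₀ ℚ, ∀ l, pr g (M.co (T (M.emb (Xv l)))) =
      ((P.m (idx l) : ℝ) / P.n (idx l)) * ∑ b ∈ E l, pr g (M.co (T (M.emb (x b)))) := by
    intro g l
    have h1 : M.co (T (M.emb (Xv l))) =
        ((P.m (idx l) : ℝ) / P.n (idx l)) • ∑ b ∈ E l, M.co (T (M.emb (x b))) := by
      simp only [hXv]
      rw [M.emb_smul, map_smul, M.co_smul, M.emb_sum, map_sum]
      congr 1
      funext a
      simp only [Model.co, map_sum, Finset.sum_apply]
    rw [h1, pr_smul_right]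
    congr 1
    have := pr_sum_right g (E l) (fun b => M.co (T (M.emb (x b))))
    convert this using 2
  have hFB : ∀ k, ∀ v : ℕ → ℝ, pr (F k) v = (1 / (P.m (idx k) : ℝ)) * ∑ a ∈ E k, pr (f a) v := by
    intro k v
    have h1 : F k = (1 / (P.m (idx k) : ℚ)) • ∑ r ∈ range (P.n (idx k)), f (p k + r) := rfl
    rw [h1, pr_smul_left, pr_sum_left]
    have h2 : ∑ a ∈ E k, pr (f a) v = ∑ r ∈ range (P.n (idx k)), pr (f (p k + r)) v := by
      simp only [hE]
      rw [Finset.sum_Ico_eq_sum_range, Nat.add_sub_cancel_left]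
    rw [h2]
    push_cast
    ring
  have hterm : ∀ k l, (if k = l then δ else 0) - δ / 8 * ((∑ a ∈ E k, ((1 : ℝ) / 2) ^ a) *
      ∑ b ∈ E l, ((1 : ℝ) / 2) ^ b) ≤ pr (F k) (M.co (T (M.emb (Xv l)))) := by
    intro k l
    have e1 : pr (F k) (M.co (T (M.emb (Xv l)))) = ∑ a ∈ E k, ∑ b ∈ E l,
        (1 / (P.m (idx k) : ℝ)) * ((P.m (idx l) : ℝ) / P.n (idx l)) * B a b := by
      rw [hFB, Finset.mul_sum]
      refine Finset.sum_congr rfl fun a _ => ?_
      rw [hXB, ← Finset.mul_sum]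
      ring
    have e2 : (if k = l then δ else 0) - δ / 8 * ((∑ a ∈ E k, ((1 : ℝ) / 2) ^ a) *
        ∑ b ∈ E l, ((1 : ℝ) / 2) ^ b) = ∑ a ∈ E k, ∑ b ∈ E l,
        ((if k = l ∧ a = b then δ / P.n (idx k) else 0) -
          δ / 8 * ((1 / 2) ^ a * (1 / 2) ^ b)) := by
      simp only [Finset.sum_sub_distrib]
      congr 1
      · by_cases hkl : k = l
        · subst hkl
          simp only [true_and, if_true]
          have : ∀ a ∈ E k, ∑ b ∈ E k, (if a = b then δ / (P.n (idx k) : ℝ) else 0) =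
              δ / P.n (idx k) := by
            intro a ha
            rw [Finset.sum_ite_eq, if_pos ha]
          rw [Finset.sum_congr rfl this, Finset.sum_const]
          simp only [hE, Nat.card_Ico, Nat.add_sub_cancel_left, nsmul_eq_mul]
          field_simp [(hnpos (idx k)).ne']
        · simp [hkl]
      · rw [Finset.sum_mul_sum, Finset.mul_sum]
        refine Finset.sum_congr rfl fun a _ => ?_
        rw [Finset.mul_sum]
    rw [e1, e2]
    refine Finset.sum_le_sum fun a ha => Finset.sum_le_sum fun b hb => ?_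
    have hc0 : 0 ≤ (1 / (P.m (idx k) : ℝ)) * ((P.m (idx l) : ℝ) / P.n (idx l)) := by
      have := hmpos (idx k); have := hmpos (idx l); have := hnpos (idx l); positivity
    have hc1 : (1 / (P.m (idx k) : ℝ)) * ((P.m (idx l) : ℝ) / P.n (idx l)) ≤ 1 := by
      have h1 : (1 / (P.m (idx k) : ℝ)) ≤ 1 := by
        rw [div_le_one (hmpos _)]
        exact_mod_cast P.m_pos _
      have h2 : ((P.m (idx l) : ℝ) / P.n (idx l)) ≤ 1 := by
        rw [div_le_one (hnpos _)]
        exact_mod_cast m_le_n P _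
      exact mul_le_one₀ h1 (div_nonneg (hmpos _).le (hnpos _).le) h2
    by_cases hab : a = b
    · have hkl : k = l := by
        by_contra hkl
        have h1 := Finset.mem_Ico.1 ha
        have h2 := Finset.mem_Ico.1 hb
        rcases lt_or_gt_of_ne hkl with h | h
        · have := pp_lt P f i0 h
          change p k + P.n (idx k) ≤ p l at this
          omega
        · have := pp_lt P f i0 h
          change p l + P.n (idx l) ≤ p k at this
          omega
      subst hab
      subst hkl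
      rw [if_pos ⟨rfl, rfl⟩]
      have h1 : δ ≤ B a a := (hf a).2.2.2.2.1
      have h2 : (1 / (P.m (idx k) : ℝ)) * ((P.m (idx k) : ℝ) / P.n (idx k)) =
          1 / P.n (idx k) := by
        have := (hmpos (idx k)).ne'
        field_simp
      rw [h2]
      have h3 : δ / P.n (idx k) ≤ 1 / P.n (idx k) * B a a := by
        rw [div_mul_eq_mul_div, one_mul]
        exact div_le_div_of_nonneg_right h1 (hnpos _).le
      have h4 : 0 ≤ δ / 8 * ((1 / 2 : ℝ) ^ a * (1 / 2) ^ a) := by positivity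
      linarith
    · rw [if_neg (fun h => hab h.2)]
      have h1 : |B a b| ≤ δ / 8 / 2 ^ (a + b) := (hf a).2.2.2.2.2 b (Ne.symm hab)
      have h2 : δ / 8 / 2 ^ (a + b) = δ / 8 * ((1 / 2 : ℝ) ^ a * (1 / 2) ^ b) := by
        rw [← pow_add, one_div, inv_pow, div_eq_mul_inv (δ / 8)]
      rw [h2] at h1
      have h3 : |(1 / (P.m (idx k) : ℝ)) * ((P.m (idx l) : ℝ) / P.n (idx l)) * B a b| ≤
          1 * |B a b| := by
        rw [abs_mul, abs_of_nonneg hc0]
        exact mul_le_mul_of_nonneg_right hc1 (abs_nonneg _)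
      have h4 := neg_abs_le ((1 / (P.m (idx k) : ℝ)) * ((P.m (idx l) : ℝ) / P.n (idx l)) * B a b)
      linarith
  -- sum of the powers
  have hW : ∑ k ∈ range (P.n J), ∑ a ∈ E k, ((1 : ℝ) / 2) ^ a ≤ 2 := by
    have h1 : ∀ n, ∑ k ∈ range n, ∑ a ∈ E k, ((1 : ℝ) / 2) ^ a ≤ 2 - 2 * (1 / 2) ^ (p n) := by
      intro n
      induction n with
      | zero =>
        simp only [Finset.range_zero, Finset.sum_empty]
        have : ((1 : ℝ) / 2) ^ (p 0) ≤ 1 := pow_le_one₀ (by norm_num) (by norm_num)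
        linarith
      | succ n ih =>
        rw [Finset.sum_range_succ]
        have h2 : ∑ a ∈ E n, ((1 : ℝ) / 2) ^ a =
          2 * (1 / 2) ^ (p n) - 2 * (1 / 2) ^ (p n + P.n (idx n)) := sum_half _ _
        have h3 : ((1 : ℝ) / 2) ^ (p (n + 1)) ≤ (1 / 2) ^ (p n + P.n (idx n)) :=
          pow_le_pow_of_le_one (by norm_num) (by norm_num) (pp_lt P f i0 (Nat.lt_succ_self n))
        linarith
    have h2 := h1 (P.n J)
    have h3 : (0 : ℝ) ≤ 2 * (1 / 2) ^ (p (P.n J)) := by positivity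
    linarith
  have hW0 : 0 ≤ ∑ k ∈ range (P.n J), ∑ a ∈ E k, ((1 : ℝ) / 2) ^ a :=
    Finset.sum_nonneg fun _ _ => Finset.sum_nonneg fun _ _ => by positivity
  -- lower bound
  have hn1 : (1 : ℝ) ≤ P.n J := by exact_mod_cast P.n_pos J
  have hlow : (1 / (P.m J : ℝ)) * (P.n J * δ / 2) ≤ pr Φ (M.co (T (M.emb Z))) := by
    have e1 : pr Φ (M.co (T (M.emb Z))) = (1 / (P.m J : ℝ)) *
        ∑ k ∈ range (P.n J), ∑ l ∈ range (P.n J), pr (F k) (M.co (T (M.emb (Xv l)))) := by
      rw [hΦ, pr_smul_left, pr_sum_left]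
      push_cast
      congr 1
      refine Finset.sum_congr rfl fun k _ => ?_
      have h1 : M.co (T (M.emb Z)) = ∑ l ∈ range (P.n J), M.co (T (M.emb (Xv l))) := by
        rw [hZ, M.emb_sum, map_sum]
        funext a
        simp only [Model.co, map_sum, Finset.sum_apply]
      rw [h1]
      have := pr_sum_right (F k) (range (P.n J)) (fun b => M.co (T (M.emb (Xv b))))
      convert this using 2
    rw [e1]
    apply mul_le_mul_of_nonneg_left _ (by have := hmpos J; positivity)
    have h1 : ∑ k ∈ range (P.n J), ∑ l ∈ range (P.n J), ((if k = l then δ else 0) -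
        δ / 8 * ((∑ a ∈ E k, ((1 : ℝ) / 2) ^ a) * ∑ b ∈ E l, ((1 : ℝ) / 2) ^ b)) ≤
        ∑ k ∈ range (P.n J), ∑ l ∈ range (P.n J), pr (F k) (M.co (T (M.emb (Xv l)))) :=
      Finset.sum_le_sum fun k _ => Finset.sum_le_sum fun l _ => hterm k l
    refine le_trans ?_ h1
    simp only [Finset.sum_sub_distrib]
    have h2 : ∑ k ∈ range (P.n J), ∑ l ∈ range (P.n J), (if k = l then δ else 0) =
        P.n J * δ := by
      have : ∀ k ∈ range (P.n J), ∑ l ∈ range (P.n J), (if k = l then δ else 0) = δ := by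
        intro k hk
        rw [Finset.sum_ite_eq, if_pos hk]
      rw [Finset.sum_congr rfl this]
      simp
    have h3 : ∑ k ∈ range (P.n J), ∑ l ∈ range (P.n J), δ / 8 *
        ((∑ a ∈ E k, ((1 : ℝ) / 2) ^ a) * ∑ b ∈ E l, ((1 : ℝ) / 2) ^ b) =
        δ / 8 * ((∑ k ∈ range (P.n J), ∑ a ∈ E k, ((1 : ℝ) / 2) ^ a) *
          ∑ l ∈ range (P.n J), ∑ b ∈ E l, ((1 : ℝ) / 2) ^ b) := by
      rw [Finset.sum_mul_sum, Finset.mul_sum]
      refine Finset.sum_congr rfl fun k _ => ?_
      rw [Finset.mul_sum]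
    rw [h2, h3]
    have h4 : (∑ k ∈ range (P.n J), ∑ a ∈ E k, ((1 : ℝ) / 2) ^ a) *
          ∑ l ∈ range (P.n J), ∑ b ∈ E l, ((1 : ℝ) / 2) ^ b ≤ 2 * 2 :=
      mul_le_mul hW hW hW0 (by norm_num)
    nlinarith
  have hfin := hlow.trans ((le_abs_self _).trans hup)
  have hmJ := hmpos J
  rw [div_lt_iff₀ hδ] at hJm
  have h5 : ‖T‖ * (3 * (3 * C) * P.n J / (P.m J : ℝ) ^ 2) =
      (1 / (P.m J : ℝ)) * ((9 * C * ‖T‖ / P.m J) * P.n J) := by
    field_simp
    ring
  rw [h5] at hfin
  have h6 := le_of_mul_le_mul_left hfin (by positivity)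
  have h7 : P.n J * δ / 2 = (δ / 2) * P.n J := by ring
  rw [h7] at h6
  have h8 := le_of_mul_le_mul_right h6 (hnpos J)
  rw [le_div_iff₀ hmJ] at h8
  linarith

end Pool.Agent.W912.GU
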